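import Pool.Agent.H369.TH.Stm

/-! TH1: rules for the ring of entire functions. -/

set_option autoImplicit false

namespace Pool.Agent.H100.TH

open Pool.Agent.H369.TH

variable {Γ K : Type} [AddCommGroup Γ] [LinearOrder Γ] [IsOrderedAddMonoid Γ] [Field K]

theorem ext_co {f g : Ent Γ K} (h : ∀ m, co f m = co g m) : f = g := by
  apply Subtype.ext
  funext s
  apply cf_ext
  intro a m
  rw [Ent.rel f s a m, Ent.rel g s a m, ← coeff_co, ← coeff_co, h m]

theorem co_add (f g : Ent Γ K) (m : ℤ) : co (f + g) m = co f m + co g m := by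
  ext a
  rw [HahnSeries.coeff_add, coeff_co, coeff_co, coeff_co]
  exact cf_add (f.1 0) (g.1 0) a m

theorem co_cst_mul (c : HG Γ K) (f : Ent Γ K) (m : ℤ) : co (cst c * f) m = c * co f m := by
  ext a
  have h1 : (c * co f m).coeff a = cf (incl (c * co f m)) a 0 := by
    rw [cf_incl, if_pos rfl]
  have h2 : (co (cst c * f) m).coeff a = cf (incl c * f.1 0) a m := rfl
  rw [h1, h2, map_mul, cf_mul, cf_mul]
  refine finsum_congr fun p => ?_
  rw [cf_incl, cf_incl]
  by_cases hp : p.2 = 0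
  · rw [if_pos hp, hp, sub_zero, sub_zero, if_pos rfl, coeff_co]
  · rw [if_neg hp, zero_mul, zero_mul]

theorem cf_mono (k : ℤ) (s a : Γ) (m : ℤ) :
    cf ((mono k : Ent Γ K).1 s) a m = if a = k • s ∧ m = k then 1 else 0 := by
  classical
  show ((HahnSeries.single (k • s) (AddMonoidAlgebra.single k (1 : K)) : HL Γ K).coeff a).coeff m = _
  rw [HahnSeries.coeff_single]
  by_cases ha : a = k • s
  · rw [if_pos ha, AddMonoidAlgebra.coeff_single, Finsupp.single_apply]
    by_cases hm : m = k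
    · rw [if_pos hm.symm, if_pos ⟨ha, hm⟩]
    · rw [if_neg (fun h => hm h.symm), if_neg (fun h => hm h.2)]
  · rw [if_neg ha, if_neg (fun h => ha h.1)]
    rfl

theorem co_mono_mul (k m : ℤ) (f : Ent Γ K) : co (mono k * f) m = co f (m - k) := by
  ext a
  have h2 : (co (mono k * f) m).coeff a = cf ((mono k : Ent Γ K).1 0 * f.1 0) a m := rfl
  rw [h2, cf_mul, finsum_eq_single _ ((0 : Γ), k)]
  · rw [cf_mono, if_pos ⟨by rw [smul_zero], rfl⟩, one_mul, sub_zero, coeff_co]
  · intro p hp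
    rw [cf_mono, if_neg, zero_mul]
    rintro ⟨h3, h4⟩
    apply hp
    rw [smul_zero] at h3
    exact Prod.ext h3 h4

theorem v_mul (a b : Pt Γ K) : (a * b).v = a.v + b.v := rfl

theorem cc_mul (a b : Pt Γ K) : cc (a * b) = cc a * cc b := by
  unfold cc
  rw [HahnSeries.single_mul_single, v_mul]
  rfl

theorem cc_one : cc (1 : Pt Γ K) = 1 := rfl

theorem cc_ne (a : Pt Γ K) : cc a ≠ 0 := HahnSeries.single_ne_zero a.2.ne_zero

/-- monomial constants as a homomorphism -/
noncomputable def ccH (Γ K : Type) [AddCommGroup Γ] [LinearOrder Γ] [IsOrderedAddMonoid Γ]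
    [Field K] : Pt Γ K →* HG Γ K where
  toFun := cc
  map_one' := cc_one
  map_mul' := cc_mul

theorem cc_zpow (a : Pt Γ K) (k : ℤ) : cc (a ^ k) = cc a ^ k := by
  have h1 : ((ccH Γ K).toHomUnits (a ^ k) : HG Γ K) = cc (a ^ k) := rfl
  rw [← h1, map_zpow, Units.val_zpow_eq_zpow_val]
  rfl

theorem cc_qq_zpow (P : Γ) (m : ℤ) : cc ((qq P : Pt Γ K) ^ m) = HahnSeries.single (m • P) 1 := by
  have h1 : ((qq P : Pt Γ K) ^ m).v = m • P := rfl
  have h2 : (((qq P : Pt Γ K) ^ m).2 : K) = 1 := by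
    have h3 : ((qq P : Pt Γ K) ^ m).2 = (1 : Kˣ) ^ m := rfl
    rw [h3, one_zpow]
    rfl
  unfold cc
  rw [h1, h2]

theorem co_sg (P : Γ) (f : Ent Γ K) (m : ℤ) : co (sg P f) m = cc (qq P ^ m) * co f m := by
  ext a
  rw [cc_qq_zpow, HahnSeries.coeff_single_mul, one_mul, coeff_co, coeff_co]
  show cf (f.1 (0 + P)) a m = _
  rw [Ent.rel f (0 + P) a m, zero_add]

theorem mono_zero : (mono 0 : Ent Γ K) = 1 := by
  apply Subtype.ext
  funext s
  apply cf_ext
  intro a m
  rw [cf_mono]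
  show _ = cf (1 : HL Γ K) a m
  rw [cf_one, zero_smul]

theorem mono_mul (k l : ℤ) : (mono k * mono l : Ent Γ K) = mono (k + l) := by
  apply ext_co
  intro m
  rw [co_mono_mul]
  ext a
  rw [coeff_co, coeff_co, cf_mono, cf_mono, smul_zero, smul_zero]
  by_cases h : m = k + l
  · rw [h]
    simp
  · have h' : ¬ (m - k = l) := fun h2 => h (by rw [← h2]; ring)
    rw [if_neg (fun h3 => h' h3.2), if_neg (fun h3 => h h3.2)]

theorem sg_mono (P : Γ) (k : ℤ) : sg P (mono k : Ent Γ K) = cst (cc (qq P ^ k)) * mono k := by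
  apply ext_co
  intro m
  rw [co_sg, co_cst_mul]
  by_cases h : m = k
  · rw [h]
  · have h1 : co (mono k : Ent Γ K) m = 0 := by
      ext a
      rw [coeff_co, cf_mono, if_neg (fun h3 => h h3.2)]
      rfl
    rw [h1, mul_zero, mul_zero]

theorem dom : IsDomain (Ent Γ K) := by
  let φ : Ent Γ K →+* HL Γ K := (Pi.evalRingHom (fun _ : Γ => HL Γ K) 0).comp (Ent Γ K).subtype
  have hφ : Function.Injective φ := by
    intro f g hfg
    apply ext_co
    intro m
    ext a
    rw [coeff_co, coeff_co]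
    exact congrArg (fun u : HL Γ K => cf u a m) hfg
  exact Function.Injective.isDomain φ hφ

theorem rules : S_rules := by
  intro Γ K _ _ _ _
  exact ⟨dom, fun f g h => ext_co h, co_add, co_cst_mul, co_mono_mul, co_sg, mono_mul, mono_zero,
    sg_mono, cc_mul, cc_zpow, cc_ne⟩

end Pool.Agent.H100.TH
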